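import Pool.Agent.H50.MF.GFacts

/-!
# The chord inequality (case B)
-/

set_option autoImplicit false

namespace Pool.Agent.H50.MF

open Finset Pool.Agent.H14RC Pool.Agent.H27.FM

lemma q_low {M ε : ℝ} (h0 : 0 ≤ M) (h1 : M ≤ 1 / 4) (hε2 : ε ≤ 1 / 27)
    (h : ε ≤ 271 / 200 * M) : ε ≤ G M / 4 - M + M ^ 2 := by
  rcases le_total M (1 / 32) with h2 | h2
  · have := G_nine h0 h2
    nlinarith [sq_nonneg M]
  · have h3 := G_nine (x := 1 / 32) (by norm_num) le_rfl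
    have h4 := G_conc3 (u := 1 / 32) (v := M) (w := 1 / 4) (by norm_num) h2 h1 (by norm_num)
    rw [G_one_mid (x := 1 / 4) le_rfl (by norm_num)] at h4
    have h5 : (1 / 4 - M) * (9.42 * (1 / 32)) ≤ (1 / 4 - M) * G (1 / 32) :=
      mul_le_mul_of_nonneg_left h3 (by linarith)
    nlinarith [sq_nonneg (M - 97 / 1000)]

lemma caseB_aux {α β X ε : ℝ} (hβ : 0 ≤ β) (hαβ : β ≤ α) (h2 : α ≤ X)
    (hX2 : X ≤ 3 / 4) (hε : 0 < ε) (hε2 : ε ≤ 1 / 27)
    (ht : ε ≤ 271 / 200 * α) (ha : α ≤ 1 / 4) :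
    (1 - (α + β)) * (α + β + ε) ≤ (1 - β - X) * G α + (X - α) * G β := by
  have hq := q_low (hβ.trans hαβ) ha hε2 ht
  have hm := G_mono hβ hαβ (by linarith : α ≤ 1 / 2)
  have h1 := G_le_one (x := α) (by linarith) (by linarith)
  have h4 := G_four hβ (by linarith : β ≤ 1 / 4)
  have e1 : 0 ≤ (3 / 4 - X) * (G α - G β) := mul_nonneg (by linarith) (by linarith)
  have e2 : 0 ≤ β * (1 - G α) := mul_nonneg hβ (by linarith)
  have e3 : 0 ≤ (3 / 4 - α) * (G β - 4 * β) := mul_nonneg (by linarith) (by linarith)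
  have e4 : 0 ≤ β * (1 - 2 * α) := mul_nonneg hβ (by linarith)
  have e5 : 0 ≤ ε * (α + β) := mul_nonneg hε.le (by linarith)
  nlinarith [sq_nonneg β]

lemma caseB_one {α β X ε : ℝ} (hα : 0 ≤ α) (h2 : β ≤ 1 - X)
    (hX1 : 1 / 4 + ε ≤ X) (hε : 0 < ε) (ha : α ≤ 1 / 4) (hb : 1 / 4 ≤ β) :
    (1 - (α + β)) * (α + β + ε) ≤ (1 - β - X) * G α + (X - α) * G β := by
  rw [G_one_mid (x := β) hb (by linarith)]
  have e1 := G_four hα ha
  have e2 := G_le_one (x := α) hα (by linarith)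
  obtain ⟨h, hh⟩ : ∃ h, h = 1 - G α := ⟨_, rfl⟩
  obtain ⟨s, hs⟩ : ∃ s, s = 1 - β - X := ⟨_, rfl⟩
  obtain ⟨w, hw⟩ : ∃ w, w = X - α := ⟨_, rfl⟩
  have hs0 : 0 ≤ s := by linarith
  have hh0 : 0 ≤ h := by linarith
  have hw0 : h / 4 + ε ≤ w := by linarith
  have eG : G α = 1 - h := by linarith
  have eα : α = X - w := by linarith
  have eβ : β = 1 - s - X := by linarith
  have key : 0 ≤ (s + w) ^ 2 - s * h - ε * (s + w) := by
    have k1 : 0 ≤ (w - (h / 4 + ε)) * (2 * s + w + (h / 4 + ε) - ε) :=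
      mul_nonneg (by linarith) (by linarith)
    nlinarith [sq_nonneg (s - h / 4), mul_nonneg hε.le hs0, mul_nonneg hε.le hh0]
  rw [← hs, ← hw, eG]
  have e3 : α + β = 1 - (s + w) := by rw [eα, eβ]; ring
  rw [e3]
  nlinarith

lemma caseB {α β X ε : ℝ} (hα : 0 ≤ α) (hβ : 0 ≤ β) (h1 : α ≤ X) (h2 : β ≤ 1 - X)
    (hX1 : 1 / 4 + ε ≤ X) (hX2 : X ≤ 3 / 4 - ε) (hε : 0 < ε) (hε2 : ε ≤ 1 / 27)
    (ht : ε ≤ 271 / 200 * α ∨ ε ≤ 271 / 200 * β) (hn : α < 1 / 4 ∨ β < 1 / 4) :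
    (1 - (α + β)) * (α + β + ε) ≤ (1 - β - X) * G α + (X - α) * G β := by
  rcases le_total α (1 / 4) with ha | ha <;> rcases le_total β (1 / 4) with hb | hb
  · rcases le_total β α with h | h
    · refine caseB_aux hβ h h1 (by linarith) hε hε2 ?_ ha
      rcases ht with ht | ht
      · exact ht
      · linarith
    · have := caseB_aux (α := β) (β := α) (X := 1 - X) hα h h2 (by linarith) hε hε2 (by
        rcases ht with ht | ht
        · linarith
        · exact ht) hb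
      have e1 : (1 - (β + α)) * (β + α + ε) = (1 - (α + β)) * (α + β + ε) := by ring
      rw [e1] at this
      linarith
  · exact caseB_one hα h2 hX1 hε ha hb
  · have := caseB_one (α := β) (β := α) (X := 1 - X) (ε := ε) hβ (by linarith) (by linarith) hε
      hb ha
    have e1 : (1 - (β + α)) * (β + α + ε) = (1 - (α + β)) * (α + β + ε) := by ring
    rw [e1] at this
    linarith
  · rcases hn with h | h
    · exact absurd h (not_lt.2 ha)
    · exact absurd h (not_lt.2 hb)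

end Pool.Agent.H50.MF
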