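import Pool.Agent.H27.FM.Basic

/-!
# More facts on the limit function `G`: upper bound, small arguments, groups of equal points
-/

set_option autoImplicit false

namespace Pool.Agent.H50.MF

open Finset Pool.Agent.H14RC Pool.Agent.H27.FM

lemma a_exp (k : ℕ) {x : ℝ} (hx : 0 < x) :
    a k x = ((k : ℝ) + 1) * (x * Real.exp (Real.log (1 / x) / ((k : ℝ) + 1))) := by
  unfold a
  congr 1
  have hk : ((k : ℝ) + 1) ≠ 0 := by positivity
  rw [Real.rpow_def_of_pos hx]
  have e : x * Real.exp (Real.log (1 / x) / ((k : ℝ) + 1))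
      = Real.exp (Real.log x) * Real.exp (Real.log (1 / x) / ((k : ℝ) + 1)) := by
    rw [Real.exp_log hx]
  rw [e, ← Real.exp_add, one_div, Real.log_inv]
  congr 1
  field_simp
  ring

lemma exp_quad {y : ℝ} (hy : 0 ≤ y) : Real.exp (-y) ≤ 1 - y + y ^ 2 / 2 := by
  have h := Real.quadratic_le_exp_of_nonneg hy
  have h1 : Real.exp (-y) * Real.exp y = 1 := by rw [← Real.exp_add]; simp
  have h2 : 0 < Real.exp (-y) := Real.exp_pos _
  have h3 : Real.exp (-y) * (1 + y + y ^ 2 / 2) ≤ 1 := by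
    calc _ ≤ Real.exp (-y) * Real.exp y := mul_le_mul_of_nonneg_left h h2.le
      _ = 1 := h1
  have h4 : (1 : ℝ) ≤ (1 - y + y ^ 2 / 2) * (1 + y + y ^ 2 / 2) := by
    have : (1 - y + y ^ 2 / 2) * (1 + y + y ^ 2 / 2) = 1 + y ^ 4 / 4 := by ring
    rw [this]
    have := pow_nonneg hy 4
    linarith
  have h5 : 0 < 1 + y + y ^ 2 / 2 := by positivity
  exact le_of_mul_le_mul_right (h3.trans h4) h5

lemma G_upper {u : ℝ} (hu : 0 < u) (hu2 : u ≤ 1 / 2) :
    G u ≤ u * (Real.exp 1 * Real.log (1 / u) + 7 / 10) := by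
  set L := Real.log (1 / u) with hL
  have hL2 : Real.log 2 ≤ L := by
    rw [hL]
    apply Real.log_le_log (by norm_num)
    rw [le_div_iff₀ hu]; linarith
  have hlog2 := Real.log_two_gt_d9
  have hLpos : 0 < L := by linarith
  obtain ⟨k, hk⟩ : ∃ k : ℕ, ⌈L⌉₊ = k + 1 :=
    Nat.exists_eq_succ_of_ne_zero (Nat.pos_iff_ne_zero.1 (Nat.ceil_pos.2 hLpos))
  have h1 : L ≤ (k : ℝ) + 1 := by
    have := Nat.le_ceil L
    rw [hk] at this
    exact_mod_cast this
  have h2 : (k : ℝ) < L := by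
    have := Nat.lt_of_lt_of_eq (Nat.lt_succ_self k) hk.symm
    exact Nat.lt_ceil.1 this
  have hk1 : (0 : ℝ) < (k : ℝ) + 1 := by positivity
  have hG := G_le k hu.le (show u ≤ 1 by linarith)
  rw [a_exp k hu] at hG
  refine hG.trans ?_
  set y := 1 - L / ((k : ℝ) + 1) with hy
  have hy0 : 0 ≤ y := by
    rw [hy, sub_nonneg, div_le_one hk1]; exact h1
  have hLy : L = ((k : ℝ) + 1) * (1 - y) := by
    rw [hy]; field_simp; ring
  have hyk : ((k : ℝ) + 1) * y ≤ 1 := by
    have : ((k : ℝ) + 1) * y = (k : ℝ) + 1 - L := by rw [hLy]; ring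
    rw [this]; linarith
  have e1 : L / ((k : ℝ) + 1) = 1 + -y := by rw [hy]; ring
  rw [e1, Real.exp_add]
  have h3 := exp_quad hy0
  have he := Real.exp_one_lt_d9
  have he0 := Real.exp_pos 1
  have h4 : ((k : ℝ) + 1) * (Real.exp 1 * (y ^ 2 / 2)) ≤ 7 / 10 := by
    rcases Nat.eq_zero_or_pos k with h | h
    · subst h
      simp only [Nat.cast_zero, zero_add, one_mul] at hyk hLy ⊢
      have hy3 : y ≤ 0.307 := by linarith
      have : y ^ 2 ≤ 0.307 ^ 2 := pow_le_pow_left₀ hy0 hy3 2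
      nlinarith
    · have hk2 : (2 : ℝ) ≤ (k : ℝ) + 1 := by
        have : (1 : ℝ) ≤ k := by exact_mod_cast h
        linarith
      have hy3 : y ≤ 1 / 2 := by nlinarith
      have h5 : ((k : ℝ) + 1) * (Real.exp 1 * (y ^ 2 / 2))
          = (((k : ℝ) + 1) * y) * (Real.exp 1 * y / 2) := by ring
      rw [h5]
      have h6 : Real.exp 1 * y / 2 ≤ 7 / 10 := by nlinarith
      have h7 : 0 ≤ Real.exp 1 * y / 2 := by positivity
      calc _ ≤ 1 * (Real.exp 1 * y / 2) := mul_le_mul_of_nonneg_right hyk h7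
        _ ≤ 7 / 10 := by linarith
  have h5 : ((k : ℝ) + 1) * (u * (Real.exp 1 * Real.exp (-y)))
      ≤ ((k : ℝ) + 1) * (u * (Real.exp 1 * (1 - y + y ^ 2 / 2))) := by
    apply mul_le_mul_of_nonneg_left _ hk1.le
    apply mul_le_mul_of_nonneg_left _ hu.le
    exact mul_le_mul_of_nonneg_left h3 he0.le
  refine h5.trans ?_
  have e2 : ((k : ℝ) + 1) * (u * (Real.exp 1 * (1 - y + y ^ 2 / 2)))
      = u * (Real.exp 1 * L + ((k : ℝ) + 1) * (Real.exp 1 * (y ^ 2 / 2))) := by
    rw [hLy]; ring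
  rw [e2]
  apply mul_le_mul_of_nonneg_left _ hu.le
  linarith

lemma G_nine {x : ℝ} (h0 : 0 ≤ x) (h1 : x ≤ 1 / 32) : 9.42 * x ≤ G x := by
  rcases eq_or_lt_of_le h0 with h | h
  · rw [← h]; simp [G_zero]
  · refine le_trans ?_ (G_log h (by linarith))
    have h2 : 5 * Real.log 2 ≤ Real.log (1 / x) := by
      have : 5 * Real.log 2 = Real.log ((2 : ℝ) ^ 5) := by
        rw [Real.log_pow]; norm_num
      rw [this]
      apply Real.log_le_log (by norm_num)
      rw [le_div_iff₀ h]; linarith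
    have h3 := Real.log_two_gt_d9
    have h4 := Real.exp_one_gt_d9
    have h5 : 9.42 ≤ Real.exp 1 * Real.log (1 / x) := by nlinarith
    nlinarith

/-- The gain of a group of `n` equal points. -/
lemma G_equal {n : ℕ} (hn : 7 ≤ n) {a : ℝ} (ha : 0 ≤ a) (hna : (n : ℝ) * a ≤ 1 / 2) :
    G (n * a) + 4 * (n * a) ≤ n * G a := by
  have hn7 : (7 : ℝ) ≤ n := by exact_mod_cast hn
  rcases eq_or_lt_of_le ha with h | h
  · rw [← h]; simp [G_zero]
  · have hpos : 0 < (n : ℝ) * a := by positivity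
    have h1 := G_upper hpos hna
    have ha2 : a ≤ 1 / 2 := by nlinarith
    have h2 := G_log h ha2
    have e : Real.log (1 / a) = Real.log n + Real.log (1 / (n * a)) := by
      rw [← Real.log_mul (by positivity) (by positivity)]
      congr 1
      field_simp
    rw [e] at h2
    have hlog : (1.9 : ℝ) ≤ Real.log n := by
      have h3 : Real.log 7 ≤ Real.log n := Real.log_le_log (by norm_num) hn7
      have h4 : (1.9 : ℝ) ≤ Real.log 7 := by
        have e1 : (7 : ℝ) = 2 ^ 3 * (7 / 8) := by norm_num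
        rw [e1, Real.log_mul (by norm_num) (by norm_num), Real.log_pow]
        have e2 := Real.log_two_gt_d9
        have e3 := Real.one_sub_inv_le_log_of_pos (x := 7 / 8) (by norm_num)
        push_cast
        norm_num at e3 ⊢
        linarith
      linarith
    have he := Real.exp_one_gt_d9
    have h5 : (4.7 : ℝ) ≤ Real.exp 1 * Real.log n := by nlinarith
    have h6 := mul_le_mul_of_nonneg_left h2 (by positivity : (0 : ℝ) ≤ n)
    have h7 : (n : ℝ) * (Real.exp 1 * (a * (Real.log n + Real.log (1 / (n * a)))))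
        = (n * a) * (Real.exp 1 * Real.log (1 / (n * a))) + (n * a) * (Real.exp 1 * Real.log n) := by
      ring
    rw [h7] at h6
    have h8 := mul_le_mul_of_nonneg_left h5 hpos.le
    nlinarith

/-- The chord of `G` bounds sums from below. -/
lemma chord_sum {ι : Type*} (s : Finset ι) (x : ι → ℝ) {A B : ℝ} (hA : 0 ≤ A) (hB : B ≤ 1)
    (hx : ∀ i ∈ s, A ≤ x i ∧ x i ≤ B) :
    (s.card * B - ∑ i ∈ s, x i) * G A + (∑ i ∈ s, x i - s.card * A) * G B
      ≤ (B - A) * ∑ i ∈ s, G (x i) := by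
  have h : ∑ i ∈ s, ((B - x i) * G A + (x i - A) * G B) ≤ ∑ i ∈ s, (B - A) * G (x i) :=
    sum_le_sum fun i hi => G_conc3 hA (hx i hi).1 (hx i hi).2 hB
  rw [← mul_sum] at h
  refine le_trans (le_of_eq ?_) h
  rw [sum_add_distrib, ← sum_mul, ← sum_mul, sum_sub_distrib, sum_sub_distrib]
  simp only [sum_const, nsmul_eq_mul]

/-- A group of at least `m/4` points of size at least `a`: gain `m a` over the sum. -/
lemma group {ι : Type*} (s : Finset ι) (x : ι → ℝ) {M a : ℝ} (ha : 0 ≤ a) (hn : 7 ≤ s.card)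
    (hM : M ≤ 4 * (s.card : ℝ)) (hx : ∀ i ∈ s, a ≤ x i) (hsum : ∑ i ∈ s, x i ≤ 1 / 2) :
    G (∑ i ∈ s, x i) + M * a ≤ ∑ i ∈ s, G (x i) := by
  classical
  set S := ∑ i ∈ s, x i with hS
  have hn7 : (7 : ℝ) ≤ (s.card : ℝ) := by exact_mod_cast hn
  have hna : (s.card : ℝ) * a ≤ S := by
    rw [← nsmul_eq_mul]
    exact card_nsmul_le_sum _ _ _ hx
  have hle : ∀ i ∈ s, x i ≤ S := fun i hi =>
    single_le_sum (f := x) (fun k hk => ha.trans (hx k hk)) hi
  have hMa : M * a ≤ 4 * (s.card * a) := by nlinarith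
  have haS : a ≤ S := by nlinarith
  rcases eq_or_lt_of_le haS with h | h
  · -- all zero
    have h0 : a = 0 := by nlinarith
    have hS0 : S = 0 := by linarith
    rw [hS0, h0, G_zero]
    have : 0 ≤ ∑ i ∈ s, G (x i) := sum_nonneg fun i hi =>
      G_nonneg (ha.trans (hx i hi)) ((hle i hi).trans (by linarith))
    linarith
  · have hc := chord_sum s x (A := a) (B := S) ha (by linarith) fun i hi => ⟨hx i hi, hle i hi⟩
    rw [← hS] at hc
    have heq := G_equal hn ha (hna.trans hsum)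
    -- concavity on `a ≤ n a ≤ S`
    have hcc := G_conc3 (u := a) (v := s.card * a) (w := S) ha (by nlinarith) hna (by linarith)
    set n : ℝ := (s.card : ℝ) with hn'
    have hd : 0 < S - a := by linarith
    have key : (S - a) * (G S + M * a) ≤ (S - a) * ∑ i ∈ s, G (x i) := by
      refine le_trans ?_ hc
      have h1 : (S - a) * (M * a) ≤ (S - a) * (n * G a - G (n * a)) :=
        mul_le_mul_of_nonneg_left (by linarith) hd.le
      -- `(S - a) G (n a) ≥ (S - n a) G a + (n a - a) G S`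
      nlinarith
    exact le_of_mul_le_mul_left key hd

end Pool.Agent.H50.MF
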