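import Pool.Agent.H50.MF.Op
import Pool.Agent.H50.MF.GFacts

/-!
# Case C: the points span almost the whole interval
-/

set_option autoImplicit false

namespace Pool.Agent.H50.MF

open Finset Pool.Agent.H14RC Pool.Agent.H27.FM

/-- A second group lemma: the gain over `4 S`. -/
lemma group2 {ι : Type*} (s : Finset ι) (x : ι → ℝ) {M a : ℝ} (ha : 0 ≤ a) (ha2 : a ≤ 1 / 32)
    (hn : 8 ≤ s.card) (hM : M ≤ 4 * (s.card : ℝ)) (hx : ∀ i ∈ s, a ≤ x i ∧ x i ≤ 1 / 4)
    (hsum : ∑ i ∈ s, x i ≤ 1 / 2) :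
    4 * ∑ i ∈ s, x i + M * a ≤ ∑ i ∈ s, G (x i) := by
  set S := ∑ i ∈ s, x i with hS
  have hn8 : (8 : ℝ) ≤ (s.card : ℝ) := by exact_mod_cast hn
  have hc := chord_sum s x (A := a) (B := 1 / 4) ha (by norm_num) hx
  rw [← hS, G_one_mid (x := 1 / 4) le_rfl (by norm_num)] at hc
  have h9 := G_nine ha ha2
  have hS0 : 0 ≤ S := sum_nonneg fun i hi => ha.trans (hx i hi).1
  set n : ℝ := (s.card : ℝ) with hn'
  have h1 : (n * (1 / 4) - S) * (9.42 * a) ≤ (n * (1 / 4) - S) * G a :=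
    mul_le_mul_of_nonneg_left h9 (by linarith)
  have h2 : 0 ≤ a * (0.355 * n - 5.42 * S) := mul_nonneg ha (by linarith)
  have h3 : 0 ≤ a * (4 * n - M) := mul_nonneg ha (by linarith)
  have h4 : 0 ≤ a * a * (4 * n - M) := mul_nonneg (mul_nonneg ha ha) (by linarith)
  have h5 : 0 ≤ a * a * n := mul_nonneg (mul_nonneg ha ha) (by linarith)
  rcases le_total 0 M with hM0 | hM0
  · have h6 : 0 ≤ a * a * M := mul_nonneg (mul_nonneg ha ha) hM0
    have key : (1 / 4 - a) * (4 * S + M * a) ≤ (1 / 4 - a) * ∑ i ∈ s, G (x i) := by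
      refine le_trans ?_ hc
      nlinarith
    exact le_of_mul_le_mul_left key (by linarith)
  · have h7 : 4 * S ≤ ∑ i ∈ s, G (x i) := by
      rw [hS, mul_sum]
      exact sum_le_sum fun i hi => G_four (ha.trans (hx i hi).1) (hx i hi).2
    nlinarith

lemma g_zero {m c : ℕ} {g : ℝ → ℝ} (hg : Good m c g) : g 0 = 0 := by
  have := hg.small 0 (by rw [d_zero]; norm_num)
  rw [this, d_zero, G_zero]

lemma g_sum {m c : ℕ} {g : ℝ → ℝ} (hg : Good m c g) {ι : Type*} (s : Finset ι) (x : ι → ℝ) :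
    g (∑ i ∈ s, x i) ≤ ∑ i ∈ s, g (x i) := by
  classical
  induction s using Finset.induction_on with
  | empty => simp [g_zero hg]
  | insert a s ha ih =>
    rw [sum_insert ha, sum_insert ha]
    exact (hg.sub _ _).trans (by linarith)

lemma Par.meps {m c : ℕ} (P : Par m c) :
    (m : ℝ) * (1 / ((m : ℝ) - 1)) = 1 + 1 / ((m : ℝ) - 1) := by
  have : (0 : ℝ) < (m : ℝ) - 1 := by linarith [P.m28]
  field_simp
  ring

/-- The final inequality for the two groups. -/
lemma two_groups {m c : ℕ} (P : Par m c) {g : ℝ → ℝ} (hg : Good m c g) {ι : Type*}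
    (L H : Finset ι) (y z : ι → ℝ) {α β : ℝ} (hα : 0 ≤ α) (hβ : 0 ≤ β) (hα2 : α ≤ 1 / 32)
    (hL : ∀ i ∈ L, α ≤ y i ∧ y i ≤ 1 / 4)
    (hH : ∀ i ∈ H, β ≤ z i ∧ z i ≤ 1 / 4) (cL : (m : ℝ) / 4 + 2 / 5 ≤ L.card)
    (cH : (m : ℝ) / 4 + 2 / 5 ≤ H.card) (hS : ∑ i ∈ L, y i + ∑ i ∈ H, z i ≤ 1 / 2)
    (hle : ∑ i ∈ H, z i ≤ ∑ i ∈ L, y i) :
    m * (α + β) + g (∑ i ∈ L, y i - ∑ i ∈ H, z i) ≤ ∑ i ∈ L, G (y i) + ∑ i ∈ H, G (z i) := by
  have h28 := P.m28
  have hL8 : 8 ≤ L.card := by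
    have : (7 : ℝ) < (L.card : ℝ) := by linarith
    have : 7 < L.card := by exact_mod_cast this
    omega
  have SL0 : 0 ≤ ∑ i ∈ L, y i := sum_nonneg fun i hi => hα.trans (hL i hi).1
  have SH0 : 0 ≤ ∑ i ∈ H, z i := sum_nonneg fun i hi => hβ.trans (hH i hi).1
  have hWH : m * β ≤ ∑ i ∈ H, G (z i) := by
    have h1 : ∀ i ∈ H, 4 * β ≤ G (z i) := fun i hi =>
      (by linarith [(hH i hi).1] : 4 * β ≤ 4 * z i).trans
        (G_four (hβ.trans (hH i hi).1) (hH i hi).2)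
    have h2 := card_nsmul_le_sum H (fun i => G (z i)) (4 * β) h1
    rw [nsmul_eq_mul] at h2
    have h3 : 0 ≤ (4 * (H.card : ℝ) - m) * β := mul_nonneg (by linarith) hβ
    nlinarith
  set SL := ∑ i ∈ L, y i with hSL
  set SH := ∑ i ∈ H, z i with hSH
  have hd : d (SL - SH) = SL - SH := d_of_le (by linarith) (by linarith)
  rcases lt_or_ge (d (SL - SH)) (1 / 4) with h | h
  · rw [hg.small _ h, hd]
    have h1 : G (SL - SH) ≤ G SL := G_mono (by linarith) (by linarith) (by linarith)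
    have h2 := group L y (M := m) hα (by omega) (by linarith) (fun i hi => (hL i hi).1)
      (by rw [← hSL]; linarith)
    rw [← hSL] at h2
    linarith
  · have h1 := hg.up2 _ h
    rw [hd] at h1
    have h2 := group2 L y (M := m) hα hα2 hL8 (by linarith) hL (by rw [← hSL]; linarith)
    rw [← hSL] at h2
    linarith

lemma caseC {m c : ℕ} (P : Par m c) {g : ℝ → ℝ} (hg : Good m c g) (x : Fin m → ℝ) (α β : ℝ)
    (hα : 0 ≤ α) (hβ : 0 ≤ β) (hx : ∀ i, α ≤ x i ∧ x i ≤ 1 - β)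
    (ht1 : 271 / 200 * α ≤ 1 / ((m : ℝ) - 1)) (ht2 : 271 / 200 * β ≤ 1 / ((m : ℝ) - 1))
    (hX1 : (m : ℝ) / 4 + 47 / 40 ≤ ∑ i, x i) (hX2 : ∑ i, x i ≤ 3 * (m : ℝ) / 4 - 47 / 40) :
    m * (α + β) + g (∑ i, x i) ≤ ∑ i, T m c g (x i) := by
  classical
  have h28 := P.m28
  have hm0 : (0 : ℝ) < m := by linarith
  obtain ⟨e1, e2, -, -⟩ := P.eps
  have emε := P.meps
  have hα2 : α ≤ 1 / 32 := by linarith
  have hβ2 : β ≤ 1 / 32 := by linarith
  set L := univ.filter fun i => x i < 1 / 4 with hL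
  set H := univ.filter fun i => 3 / 4 < x i with hH
  set M := univ.filter fun i => 1 / 4 ≤ x i ∧ x i ≤ 3 / 4 with hM
  have split : ∀ f : Fin m → ℝ, ∑ i, f i = ∑ i ∈ L, f i + ∑ i ∈ H, f i + ∑ i ∈ M, f i := by
    intro f
    rw [hL, hH, hM, sum_filter, sum_filter, sum_filter, ← sum_add_distrib, ← sum_add_distrib]
    apply sum_congr rfl
    intro i _
    rcases lt_or_ge (x i) (1 / 4) with h1 | h1
    · rw [if_pos h1, if_neg (by linarith), if_neg (by intro h; linarith [h.1])]; ring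
    · rcases lt_or_ge (3 / 4) (x i) with h2 | h2
      · rw [if_neg (by linarith), if_pos h2, if_neg (by intro h; linarith [h.2])]; ring
      · rw [if_neg (by linarith), if_neg (by linarith), if_pos ⟨h1, h2⟩]; ring
  have mL : ∀ i ∈ L, x i < 1 / 4 := fun i hi => (mem_filter.1 hi).2
  have mH : ∀ i ∈ H, 3 / 4 < x i := fun i hi => (mem_filter.1 hi).2
  have mM : ∀ i ∈ M, 1 / 4 ≤ x i ∧ x i ≤ 3 / 4 := fun i hi => (mem_filter.1 hi).2
  have dL : ∀ i ∈ L, d (x i) = x i := fun i hi =>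
    d_of_le (by linarith [(hx i).1]) (by linarith [mL i hi])
  have dH : ∀ i ∈ H, d (x i) = 1 - x i := fun i hi =>
    d_of_ge (by linarith [mH i hi]) (by linarith [(hx i).2])
  have dM : ∀ i ∈ M, 1 / 4 ≤ d (x i) := by
    intro i hi
    obtain ⟨h1, h2⟩ := mM i hi
    rcases le_total (x i) (1 / 2) with h | h
    · rw [d_of_le (by linarith) h]; exact h1
    · rw [d_of_ge h (by linarith)]; linarith
  have TL : ∑ i ∈ L, T m c g (x i) = ∑ i ∈ L, G (x i) := by
    apply sum_congr rfl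
    intro i hi
    rw [T_small (by rw [dL i hi]; exact mL i hi), dL i hi]
  have TH : ∑ i ∈ H, T m c g (x i) = ∑ i ∈ H, G (1 - x i) := by
    apply sum_congr rfl
    intro i hi
    rw [T_small (by rw [dH i hi]; linarith [mH i hi]), dH i hi]
  have TM1 : (M.card : ℝ) ≤ ∑ i ∈ M, T m c g (x i) := by
    have := card_nsmul_le_sum M (fun i => T m c g (x i)) 1 fun i hi => T_one (dM i hi)
    simpa using this
  have TMg : ∑ i ∈ M, g (x i) ≤ ∑ i ∈ M, T m c g (x i) := sum_le_sum fun i _ => hg.mono _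
  set SL := ∑ i ∈ L, x i with hSL
  set SH := ∑ i ∈ H, (1 - x i) with hSH
  set WL := ∑ i ∈ L, G (x i) with hWL
  set WH := ∑ i ∈ H, G (1 - x i) with hWH
  have bL : ∀ i ∈ L, α ≤ x i ∧ x i ≤ 1 / 4 := fun i hi => ⟨(hx i).1, (mL i hi).le⟩
  have bH : ∀ i ∈ H, β ≤ 1 - x i ∧ 1 - x i ≤ 1 / 4 := fun i hi =>
    ⟨by linarith [(hx i).2], by linarith [mH i hi]⟩
  have WL4 : 4 * SL ≤ WL := by
    rw [hSL, hWL, mul_sum]
    exact sum_le_sum fun i hi => G_four (hα.trans (bL i hi).1) (bL i hi).2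
  have WH4 : 4 * SH ≤ WH := by
    rw [hSH, hWH, mul_sum]
    exact sum_le_sum fun i hi => G_four (hβ.trans (bH i hi).1) (bH i hi).2
  have SL0 : 0 ≤ SL := sum_nonneg fun i hi => hα.trans (bL i hi).1
  have SH0 : 0 ≤ SH := sum_nonneg fun i hi => hβ.trans (bH i hi).1
  have WL9 : (L.card : ℝ) * (9.42 * α) ≤ WL := by
    have := card_nsmul_le_sum L (fun i => G (x i)) (9.42 * α) fun i hi =>
      (G_nine hα hα2).trans (G_mono hα (bL i hi).1 (by linarith [(bL i hi).2]))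
    rwa [nsmul_eq_mul] at this
  have WH9 : (H.card : ℝ) * (9.42 * β) ≤ WH := by
    have := card_nsmul_le_sum H (fun i => G (1 - x i)) (9.42 * β) fun i hi =>
      (G_nine hβ hβ2).trans (G_mono hβ (bH i hi).1 (by linarith [(bH i hi).2]))
    rwa [nsmul_eq_mul] at this
  rw [split (fun i => T m c g (x i)), TL, TH]
  have hgup := hg.up (∑ i, x i)
  rcases le_total (m * (α + β) + (1 + 1 / ((m : ℝ) - 1))) (M.card + (WL + WH)) with hbig | hbig
  · linarith
  -- now everything is small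
  have hmt : m * (α + β) ≤ 1.531 := by
    have h1 : (m : ℝ) * (271 / 200 * α) ≤ m * (1 / ((m : ℝ) - 1)) := by gcongr
    have h2 : (m : ℝ) * (271 / 200 * β) ≤ m * (1 / ((m : ℝ) - 1)) := by gcongr
    linarith
  have hM0 : (0 : ℝ) ≤ M.card := by positivity
  have hM2 : (M.card : ℝ) ≤ 2 := by
    have : (M.card : ℝ) < 3 := by linarith
    have : M.card < 3 := by exact_mod_cast this
    have : M.card ≤ 2 := by omega
    exact_mod_cast this
  -- the numbers of small and large points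
  have hc : (m : ℝ) = L.card + H.card + M.card := by
    have := split (fun _ => (1 : ℝ))
    simpa using this
  have hsx := split x
  have hHx : ∑ i ∈ H, x i = H.card - SH := by
    rw [hSH, sum_sub_distrib]; simp
  have hMu : ∑ i ∈ M, x i ≤ 3 / 4 * M.card := by
    have := sum_le_card_nsmul M x (3 / 4) fun i hi => (mM i hi).2
    simpa [mul_comm] using this
  have hMl : 1 / 4 * M.card ≤ ∑ i ∈ M, x i := by
    have := card_nsmul_le_sum M x (1 / 4) fun i hi => (mM i hi).1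
    simpa [mul_comm] using this
  rw [← hSL, hHx] at hsx
  have hq0 : (m : ℝ) / 4 - 47 / 100 ≤ H.card := by linarith
  have hp0 : (m : ℝ) / 4 - 47 / 100 ≤ L.card := by linarith
  have hkey : 1.19 * (m * (α + β)) + M.card ≤ 1.0371 := by
    have k1 : ((m : ℝ) / 4 - 47 / 100) * (9.42 * α) ≤ L.card * (9.42 * α) := by gcongr
    have k2 : ((m : ℝ) / 4 - 47 / 100) * (9.42 * β) ≤ H.card * (9.42 * β) := by gcongr
    have k3 : 0 ≤ (0.165 * (m : ℝ) - 4.4274) * (α + β) :=
      mul_nonneg (by linarith) (by linarith)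
    nlinarith
  have hmt0 : 0 ≤ m * (α + β) := by positivity
  have hM1 : (M.card : ℝ) ≤ 1 := by
    have : (M.card : ℝ) < 2 := by linarith
    have : M.card < 2 := by exact_mod_cast this
    have : M.card ≤ 1 := by omega
    exact_mod_cast this
  have hS : 4 * (SL + SH) ≤ 1.8404 * (1.0371 - M.card) := by linarith
  have hq : (m : ℝ) / 4 + 2 / 5 ≤ H.card := by linarith
  have hp : (m : ℝ) / 4 + 2 / 5 ≤ L.card := by linarith
  -- reduction to the sum over `L` and `H`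
  have hgs : g (∑ i, x i) ≤ g (SL - SH) + ∑ i ∈ M, T m c g (x i) := by
    rw [hsx]
    have h1 := hg.sub (SL + (H.card - SH)) (∑ i ∈ M, x i)
    have h2 := hg.per (SL - SH) (H.card : ℤ)
    rw [show SL - SH + ((H.card : ℤ) : ℝ) = SL + (H.card - SH) by push_cast; ring] at h2
    rw [h2] at h1
    linarith [g_sum hg M x]
  suffices hsuff : m * (α + β) + g (SL - SH) ≤ WL + WH by linarith
  rcases le_total SH SL with hle | hle
  · exact two_groups P hg L H x (fun i => 1 - x i) hα hβ hα2 bL bH hp hq (by linarith) hle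
  · have h1 := two_groups P hg H L (fun i => 1 - x i) x hβ hα hβ2 bH bL hq hp
      (by linarith) hle
    have h2 : g (SL - SH) = g (SH - SL) := by rw [← neg_sub, hg.even]
    rw [h2]
    linarith

end Pool.Agent.H50.MF
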