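import Pool.Agent.H50.MF.CaseA
import Pool.Agent.H50.MF.CaseB
import Pool.Agent.H50.MF.CaseC
import Pool.Agent.H86.FM.Iter
import Pool.Agent.H86.FM.Group

/-!
# The exact middle recursion for `F m`, for large `m`
-/

set_option autoImplicit false

namespace Pool.Agent.H50.MF

open Finset Pool.Agent.H14RC Pool.Agent.H27.FM Pool.Agent.H86.FM

/-- The modified function. -/
noncomputable def HH (m c : ℕ) (x : ℝ) : ℝ :=
  if d x < 1 / 4 then Ft m x else max (Ft m x) (1 - kap m c x + Ft m (m * x) / m)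

lemma HH_ge (m c : ℕ) (x : ℝ) : Ft m x ≤ HH m c x := by
  unfold HH; split_ifs
  · exact le_rfl
  · exact le_max_left _ _

lemma HH_second {m c : ℕ} {x : ℝ} (hx : 1 / 4 ≤ d x) :
    1 - kap m c x + Ft m (m * x) / m ≤ HH m c x := by
  unfold HH
  rw [if_neg (not_lt.2 hx)]
  exact le_max_right _ _

/-- Case C for the function `F m`. -/
lemma exactC {m c : ℕ} (P : Par m c) (hm6 : 1000000 ≤ m) (x : Fin m → ℝ) (α β : ℝ)
    (hα : 0 ≤ α) (hβ : 0 ≤ β) (hx : ∀ i, α ≤ x i ∧ x i ≤ 1 - β)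
    (ht : m * (α + β) ≤ 8 / 5)
    (hX1 : (m : ℝ) / 4 + 1 ≤ ∑ i, x i) (hX2 : ∑ i, x i ≤ 3 * (m : ℝ) / 4 - 1) :
    m * (α + β) + Ft m (∑ i, x i) ≤ ∑ i, Ft m (x i) := by
  classical
  have h28 := P.m28
  have hm6' : (1000000 : ℝ) ≤ m := by exact_mod_cast hm6
  have hm2 : 2 ≤ m := by omega
  have hm0 : (0 : ℝ) < m := by linarith
  obtain ⟨e1, e2, -, -⟩ := P.eps
  have hS := Ft_isSub hm2
  set L := univ.filter fun i => x i < 1 / 4 with hL
  set H := univ.filter fun i => 3 / 4 < x i with hH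
  set M := univ.filter fun i => 1 / 4 ≤ x i ∧ x i ≤ 3 / 4 with hM
  have split : ∀ f : Fin m → ℝ, ∑ i, f i = ∑ i ∈ L, f i + ∑ i ∈ H, f i + ∑ i ∈ M, f i := by
    intro f
    rw [hL, hH, hM, sum_filter, sum_filter, sum_filter, ← sum_add_distrib, ← sum_add_distrib]
    apply sum_congr rfl
    intro i _
    rcases lt_or_ge (x i) (1 / 4) with h1 | h1
    · rw [if_pos h1, if_neg (by linarith), if_neg (by intro h; linarith [h.1])]; ring
    · rcases lt_or_ge (3 / 4) (x i) with h2 | h2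
      · rw [if_neg (by linarith), if_pos h2, if_neg (by intro h; linarith [h.2])]; ring
      · rw [if_neg (by linarith), if_neg (by linarith), if_pos ⟨h1, h2⟩]; ring
  have mL : ∀ i ∈ L, x i < 1 / 4 := fun i hi => (mem_filter.1 hi).2
  have mH : ∀ i ∈ H, 3 / 4 < x i := fun i hi => (mem_filter.1 hi).2
  have mM : ∀ i ∈ M, 1 / 4 ≤ x i ∧ x i ≤ 3 / 4 := fun i hi => (mem_filter.1 hi).2
  have h01 : ∀ i, 0 ≤ x i ∧ x i ≤ 1 := fun i =>
    ⟨hα.trans (hx i).1, (hx i).2.trans (by linarith)⟩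
  have FtF : ∀ i, Ft m (x i) = F m (x i) := fun i => Ft_of_mem hm2 (h01 i).1 (h01 i).2
  have FtL : ∑ i ∈ L, Ft m (x i) = ∑ i ∈ L, F m (x i) := sum_congr rfl fun i _ => FtF i
  have FtH : ∑ i ∈ H, Ft m (x i) = ∑ i ∈ H, F m (1 - x i) := by
    apply sum_congr rfl
    intro i _
    rw [FtF, F_symm hm2 (h01 i).1 (h01 i).2]
  have FtM1 : (M.card : ℝ) ≤ ∑ i ∈ M, Ft m (x i) := by
    have := card_nsmul_le_sum M (fun i => Ft m (x i)) 1 fun i hi => by
      rw [FtF]
      have h1 := G_le_F hm2 (h01 i).1 (h01 i).2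
      rw [G_one_mid (mM i hi).1 (mM i hi).2] at h1
      exact h1
    simpa using this
  set SL := ∑ i ∈ L, x i with hSL
  set SH := ∑ i ∈ H, (1 - x i) with hSH
  set WL := ∑ i ∈ L, F m (x i) with hWL
  set WH := ∑ i ∈ H, F m (1 - x i) with hWH
  have WL4 : 4 * SL ≤ WL := by
    rw [hSL, hWL, mul_sum]
    exact sum_le_sum fun i hi =>
      (G_four (h01 i).1 (mL i hi).le).trans (G_le_F hm2 (h01 i).1 (h01 i).2)
  have WH4 : 4 * SH ≤ WH := by
    rw [hSH, hWH, mul_sum]
    exact sum_le_sum fun i hi =>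
      (G_four (by linarith [(h01 i).2]) (by linarith [mH i hi])).trans
        (G_le_F hm2 (by linarith [(h01 i).2]) (by linarith [(h01 i).1]))
  have SL0 : 0 ≤ SL := sum_nonneg fun i _ => (h01 i).1
  have SH0 : 0 ≤ SH := sum_nonneg fun i _ => by linarith [(h01 i).2]
  rw [split (fun i => Ft m (x i)), FtL, FtH]
  have hgup : Ft m (∑ i, x i) ≤ 1 + 1 / ((m : ℝ) - 1) := by
    have := Ft_le_sup hm2 (∑ i, x i)
    have e : (m : ℝ) / (m - 1) = 1 + 1 / ((m : ℝ) - 1) := by
      have : (0 : ℝ) < (m : ℝ) - 1 := by linarith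
      field_simp
      ring
    rwa [e] at this
  rcases le_total (m * (α + β) + (1 + 1 / ((m : ℝ) - 1))) (M.card + (WL + WH)) with hbig | hbig
  · linarith
  have hM3 : (M.card : ℝ) ≤ 2 := by
    have : (M.card : ℝ) < 3 := by linarith
    have : M.card < 3 := by exact_mod_cast this
    have : M.card ≤ 2 := by omega
    exact_mod_cast this
  have hM0 : (0 : ℝ) ≤ M.card := by positivity
  have hSS : SL + SH ≤ 7 / 10 := by linarith
  have hc : (m : ℝ) = L.card + H.card + M.card := by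
    have := split (fun _ => (1 : ℝ))
    simpa using this
  have hsx := split x
  have hHx : ∑ i ∈ H, x i = H.card - SH := by
    rw [hSH, sum_sub_distrib]; simp
  have hMu : ∑ i ∈ M, x i ≤ 3 / 4 * M.card := by
    have := sum_le_card_nsmul M x (3 / 4) fun i hi => (mM i hi).2
    simpa [mul_comm] using this
  have hMl : 1 / 4 * M.card ≤ ∑ i ∈ M, x i := by
    have := card_nsmul_le_sum M x (1 / 4) fun i hi => (mM i hi).1
    simpa [mul_comm] using this
  rw [← hSL, hHx] at hsx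
  have hq : (m : ℝ) / 5 + 15 ≤ H.card := by linarith
  have hp : (m : ℝ) / 5 + 15 ≤ L.card := by linarith
  have gL := Pool.Agent.H86.FM.group hm6 L x hα (fun i _ => (hx i).1) (by linarith) hp
  have gH := Pool.Agent.H86.FM.group hm6 H (fun i => 1 - x i) hβ
    (fun i _ => by linarith [(hx i).2]) (by linarith) hq
  have hsplit : Ft m (∑ i, x i) ≤ F m SL + F m SH + ∑ i ∈ M, Ft m (x i) := by
    rw [split x, hHx]
    have h1 := hS.sub (SL + (H.card - SH)) (∑ i ∈ M, x i)
    have h2 := hS.sub SL (H.card - SH)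
    have h3 := hS.sum M x
    have h4 : Ft m ((H.card : ℝ) - SH) = F m SH := by
      have e := Ft_add_int m (-SH) (H.card : ℤ)
      rw [show -SH + ((H.card : ℤ) : ℝ) = (H.card : ℝ) - SH by push_cast; ring] at e
      rw [e, Ft_neg hm2, Ft_of_mem hm2 SH0 (by linarith)]
    have h5 : Ft m SL = F m SL := Ft_of_mem hm2 SL0 (by linarith)
    rw [h4, h5] at h2
    linarith
  linarith

lemma HH_rc {m c : ℕ} (P : Par m c) (hm6 : 1000000 ≤ m) : RC m (HH m c) := by
  intro u A B hA hB hu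
  have h28 := P.m28
  have hm2 : 2 ≤ m := by omega
  have hm0 : (0 : ℝ) < m := by linarith
  obtain ⟨e1, e2, e3, e4⟩ := P.eps
  have hS := Ft_isSub hm2
  have esup : (m : ℝ) / (m - 1) = 1 + 1 / ((m : ℝ) - 1) := by
    have : (0 : ℝ) < (m : ℝ) - 1 := by linarith
    field_simp
    ring
  set X : ℝ := (∑ i, u i) / m with hX
  have hsum : ∑ i, u i = m * X := by rw [hX]; field_simp
  have hAX : A ≤ X := by
    rw [hX, le_div_iff₀ hm0]
    calc A * m = ∑ _i : Fin m, A := by simp [mul_comm]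
      _ ≤ ∑ i, u i := sum_le_sum fun i _ => (hu i).1
  have hXB : X ≤ B := by
    rw [hX, div_le_iff₀ hm0]
    calc ∑ i, u i ≤ ∑ _i : Fin m, B := sum_le_sum fun i _ => (hu i).2
      _ = B * m := by simp [mul_comm]
  have h01 : ∀ i, 0 ≤ u i ∧ u i ≤ 1 := fun i => ⟨hA.trans (hu i).1, (hu i).2.trans hB⟩
  have hrcF : RC m (Ft m) := by
    intro v A' B' hA' hB' hv
    have h1 := F_tuple hm2 v hA' hB' hv
    have e : ∀ i, Ft m (v i) = F m (v i) := fun i =>
      Ft_of_mem hm2 (hA'.trans (hv i).1) ((hv i).2.trans hB')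
    have e2 : Ft m ((∑ i, v i) / m) = F m ((∑ i, v i) / m) := by
      apply Ft_of_mem hm2
      · apply div_nonneg _ hm0.le
        exact sum_nonneg fun i _ => hA'.trans (hv i).1
      · rw [div_le_one hm0]
        calc ∑ i, v i ≤ ∑ _i : Fin m, (1 : ℝ) := sum_le_sum fun i _ => (hv i).2.trans hB'
          _ = m := by simp
    rw [e2]
    simp only [e]
    exact h1
  have hbase : Ft m X ≤ (∑ i, HH m c (u i)) / m + (B - A) := by
    refine (hrcF u A B hA hB hu).trans ?_
    have : ∑ i, Ft m (u i) ≤ ∑ i, HH m c (u i) := sum_le_sum fun i _ => HH_ge _ _ _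
    gcongr
  have hdef : HH m c X = if d X < 1 / 4 then Ft m X else
    max (Ft m X) (1 - kap m c X + Ft m (m * X) / m) := rfl
  rcases lt_or_ge (d X) (1 / 4) with hd | hd
  · rw [hdef, if_pos hd]; exact hbase
  rw [hdef, if_neg (not_lt.2 hd)]
  apply max_le hbase
  rcases le_or_gt (1 - kap m c X + Ft m (m * X) / m) (Ft m X) with hs' | hs'
  · exact hs'.trans hbase
  have hG1 : 1 ≤ Ft m X := by
    have h1 := G_le_F hm2 (hA.trans hAX) (hXB.trans hB)
    rw [← G_d (hA.trans hAX) (hXB.trans hB), G_one_mid hd (by linarith [d_le_half X])] at h1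
    rwa [Ft_of_mem hm2 (hA.trans hAX) (hXB.trans hB)]
  have hs : 1 < 1 - kap m c X + Ft m (m * X) / m := by linarith
  -- `X` is well inside
  have h2up : Ft m (m * X) / m ≤ 1 / ((m : ℝ) - 1) := by
    rw [← e3]
    have := Ft_le_sup hm2 (m * X)
    rw [esup] at this
    gcongr
  have hk : kap m c X < 1 / ((m : ℝ) - 1) := by linarith
  have hk2 : (c : ℝ) / m - d X ≤ 2 * kap m c X := by
    unfold kap
    have := le_max_right 0 ((c : ℝ) / m - d X)
    linarith
  have hcm : 1 / 4 + 13 / 4 * (1 / m) ≤ (c : ℝ) / m := by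
    rw [le_div_iff₀ (by linarith)]
    have e : (1 / 4 + 13 / 4 * (1 / (m : ℝ))) * m = m / 4 + 13 / 4 := by field_simp
    rw [e]; exact P.c1
  have hdX : 1 / 4 + 1 / ((m : ℝ) - 1) ≤ d X := by
    have : 0 < 1 / (m : ℝ) := by positivity
    linarith
  have hX1 : 1 / 4 + 1 / ((m : ℝ) - 1) ≤ X := by
    have := d_le X 0
    simp only [Int.cast_zero, sub_zero] at this
    rw [abs_of_nonneg (by linarith)] at this
    linarith
  have hX2 : X ≤ 3 / 4 - 1 / ((m : ℝ) - 1) := by
    have := d_le X 1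
    simp only [Int.cast_one] at this
    rw [abs_of_nonpos (by linarith)] at this
    linarith
  by_cases hcase : 1 / 4 ≤ A ∧ B ≤ 3 / 4
  · exact caseA_gen P (fun x n => Ft_add_int m x n) hS.sub hS.zero hrcF u _ A B hcase.1 hcase.2 hu
      fun i => HH_second (d_mid (by linarith [(hu i).1, hcase.1]) (by linarith [(hu i).2, hcase.2]))
  have hcase' : A < 1 / 4 ∨ 1 - B < 1 / 4 := by
    by_contra hcon
    push Not at hcon
    exact hcase ⟨hcon.1, by linarith [hcon.2]⟩
  have hAB : 0 < B - A := by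
    rcases hcase' with h | h <;> linarith
  rcases Classical.em (1 / ((m : ℝ) - 1) ≤ 271 / 200 * A ∨ 1 / ((m : ℝ) - 1) ≤ 271 / 200 * (1 - B))
    with ht | ht
  · -- case B
    have hB' := caseB hA (by linarith : (0 : ℝ) ≤ 1 - B) hAX (by linarith) hX1 hX2 e1 e2 ht hcase'
    rw [G_symm B] at hB'
    have hch : ∀ i, (B - u i) * G A + (u i - A) * G B ≤ (B - A) * HH m c (u i) := by
      intro i
      refine (G_conc3 hA (hu i).1 (hu i).2 hB).trans ?_
      apply mul_le_mul_of_nonneg_left _ hAB.le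
      refine (G_le_F hm2 (h01 i).1 (h01 i).2).trans ?_
      rw [← Ft_of_mem hm2 (h01 i).1 (h01 i).2]
      exact HH_ge _ _ _
    have hch2 := sum_le_sum fun i (_ : i ∈ univ) => hch i
    rw [sum_add_distrib, ← sum_mul, ← sum_mul, ← mul_sum, sum_sub_distrib, sum_sub_distrib,
      hsum] at hch2
    simp only [sum_const, card_univ, Fintype.card_fin, nsmul_eq_mul] at hch2
    have h1 : m * ((B - A) * (A + (1 - B) + 1 / ((m : ℝ) - 1))) ≤
        (B - A) * ∑ i, HH m c (u i) := by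
      have h3 : (B - A) * (A + (1 - B) + 1 / ((m : ℝ) - 1)) ≤
          (1 - (1 - B) - X) * G A + (X - A) * G B := by
        refine le_trans (le_of_eq ?_) hB'
        ring
      have h4 : (m : ℝ) * ((B - A) * (A + (1 - B) + 1 / ((m : ℝ) - 1))) ≤
          m * ((1 - (1 - B) - X) * G A + (X - A) * G B) := by gcongr
      have h6 : (m : ℝ) * ((1 - (1 - B) - X) * G A + (X - A) * G B) =
          (m * B - m * X) * G A + (m * X - m * A) * G B := by ring
      linarith
    have h2 : m * (A + (1 - B) + 1 / ((m : ℝ) - 1)) ≤ ∑ i, HH m c (u i) := by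
      have : (B - A) * (m * (A + (1 - B) + 1 / ((m : ℝ) - 1))) ≤
          (B - A) * ∑ i, HH m c (u i) := by linarith
      exact le_of_mul_le_mul_left this hAB
    have h3 : A + (1 - B) + 1 / ((m : ℝ) - 1) ≤ (∑ i, HH m c (u i)) / m := by
      rw [le_div_iff₀ hm0]; linarith
    have := kap_nonneg m c X
    linarith
  · -- case C
    push Not at ht
    have hmε := P.meps
    have ht' : (m : ℝ) * (A + (1 - B)) ≤ 8 / 5 := by
      have h1 : (m : ℝ) * (271 / 200 * A) ≤ m * (1 / ((m : ℝ) - 1)) := by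
        have := ht.1.le
        gcongr
      have h2 : (m : ℝ) * (271 / 200 * (1 - B)) ≤ m * (1 / ((m : ℝ) - 1)) := by
        have := ht.2.le
        gcongr
      linarith
    have hC := exactC P hm6 u A (1 - B) hA (by linarith)
      (fun i => ⟨(hu i).1, by linarith [(hu i).2]⟩) ht'
      (by
        rw [hsum]
        have : (m : ℝ) * (1 / 4 + 1 / ((m : ℝ) - 1)) ≤ m * X := by gcongr
        have e : (m : ℝ) * (1 / 4 + 1 / ((m : ℝ) - 1)) = m / 4 + m * (1 / ((m : ℝ) - 1)) := by ring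
        linarith)
      (by
        rw [hsum]
        have : (m : ℝ) * X ≤ m * (3 / 4 - 1 / ((m : ℝ) - 1)) := by gcongr
        have e : (m : ℝ) * (3 / 4 - 1 / ((m : ℝ) - 1)) = 3 * m / 4 - m * (1 / ((m : ℝ) - 1)) := by
          ring
        linarith)
    rw [hsum] at hC
    have hk0 := kap_nonneg m c X
    have hle : ∑ i, Ft m (u i) ≤ ∑ i, HH m c (u i) := sum_le_sum fun i _ => HH_ge _ _ _
    have goal : (m : ℝ) * 1 + Ft m (m * X) ≤ (∑ i, HH m c (u i)) + m * (B - A) := by linarith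
    have e : 1 + Ft m (m * X) / m = ((m : ℝ) * 1 + Ft m (m * X)) / m := by field_simp
    have e' : (∑ i, HH m c (u i)) / m + (B - A) =
        ((∑ i, HH m c (u i)) + m * (B - A)) / m := by field_simp
    have : 1 + Ft m (m * X) / m ≤ (∑ i, HH m c (u i)) / m + (B - A) := by
      rw [e, e']; gcongr
    linarith

lemma HH_le_F {m c : ℕ} (P : Par m c) (hm6 : 1000000 ≤ m) {x : ℝ} (h0 : 0 ≤ x) (h1 : x ≤ 1) :
    HH m c x ≤ F m x := by
  have hm2 : 2 ≤ m := by omega
  have h28 := P.m28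
  have hm0 : (0 : ℝ) < m := by linarith
  obtain ⟨e1, e2, e3, e4⟩ := P.eps
  have hS := Ft_isSub hm2
  have esup : (m : ℝ) / (m - 1) = 1 + 1 / ((m : ℝ) - 1) := by
    have : (0 : ℝ) < (m : ℝ) - 1 := by linarith
    field_simp
    ring
  have hint : ∀ n : ℤ, HH m c n = 0 := by
    intro n
    unfold HH
    rw [d_int, if_pos (by norm_num)]
    have := Ft_add_int m 0 n
    rw [zero_add] at this
    rw [this, hS.zero]
  refine le_F hm2 ⟨?_, ?_, ⟨1 + 1 / ((m : ℝ) - 1), fun y _ _ => ?_⟩,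
    relaxed_of_rc (by omega) (HH_rc P hm6)⟩ h0 h1
  · have := hint 0; simpa using this.le
  · have := hint 1; simpa using this.le
  · have h3 := Ft_le_sup hm2 y
    have h4 := Ft_le_sup hm2 (m * y)
    rw [esup] at h3 h4
    have h5 : Ft m (m * y) / m ≤ 1 / ((m : ℝ) - 1) := by
      rw [← e3]; gcongr
    have h6 := kap_nonneg m c y
    unfold HH
    split_ifs
    · exact h3
    · exact max_le h3 (by linarith)

/-- The exact middle equation. -/
theorem exact_mid {m c : ℕ} (P : Par m c) (hm6 : 1000000 ≤ m) {x : ℝ}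
    (h0 : (c : ℝ) / m ≤ x) (h1 : x ≤ 1 - (c : ℝ) / m) :
    F m x = 1 + F m (Int.fract (m * x)) / m := by
  have hm2 : 2 ≤ m := by omega
  have h28 := P.m28
  have hm0 : (0 : ℝ) < m := by linarith
  have hcm : 1 / 4 ≤ (c : ℝ) / m := by
    rw [le_div_iff₀ hm0]; linarith [P.c1]
  apply le_antisymm (F_floor hm2 (by linarith) (by linarith))
  have hd : (c : ℝ) / m ≤ d x := by
    rcases le_total x (1 / 2) with h | h
    · rw [d_of_le (by linarith) h]; exact h0
    · rw [d_of_ge h (by linarith)]; linarith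
  have h2 := HH_second (m := m) (c := c) (x := x) (by linarith)
  have hk : kap m c x = 0 := by
    unfold kap
    rw [max_eq_left (by linarith)]; norm_num
  rw [hk, sub_zero] at h2
  exact h2.trans (HH_le_F P hm6 (by linarith) (by linarith))

end Pool.Agent.H50.MF
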