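import Pool.Agent.H27.FM.Slack

/-!
# The operator `T` and the class of good functions
-/

set_option autoImplicit false

namespace Pool.Agent.H50.MF

open Finset Pool.Agent.H14RC Pool.Agent.H27.FM

/-- The penalty. -/
noncomputable def kap (m c : ℕ) (x : ℝ) : ℝ := max 0 ((c : ℝ) / m - d x) / 2

/-- The operator. -/
noncomputable def T (m c : ℕ) (g : ℝ → ℝ) (x : ℝ) : ℝ :=
  if d x < 1 / 4 then G (d x) else max 1 (1 - kap m c x + g (m * x) / m)

/-- Good functions. -/
structure Good (m c : ℕ) (g : ℝ → ℝ) : Prop where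
  per : ∀ x (n : ℤ), g (x + n) = g x
  even : ∀ x, g (-x) = g x
  sub : ∀ x y, g (x + y) ≤ g x + g y
  lo : ∀ x, G (d x) ≤ g x
  up : ∀ x, g x ≤ 1 + 1 / ((m : ℝ) - 1)
  small : ∀ x, d x < 1 / 4 → g x = G (d x)
  up2 : ∀ x, 1 / 4 ≤ d x → g x ≤ 4 * d x
  rc : RC m g
  mono : ∀ x, g x ≤ T m c g x

/-- The conditions on the parameters. -/
structure Par (m c : ℕ) : Prop where
  hm : 28 ≤ m
  c1 : (m : ℝ) / 4 + 13 / 4 ≤ c
  c2 : (c : ℝ) ≤ m / 4 + 5

lemma Par.m28 {m c : ℕ} (P : Par m c) : (28 : ℝ) ≤ m := by exact_mod_cast P.hm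

lemma Par.eps {m c : ℕ} (P : Par m c) :
    0 < 1 / ((m : ℝ) - 1) ∧ 1 / ((m : ℝ) - 1) ≤ 1 / 27 ∧
      (1 + 1 / ((m : ℝ) - 1)) / m = 1 / ((m : ℝ) - 1) ∧ 1 / ((m : ℝ) - 1) ≤ 28 / 27 * (1 / m) := by
  have h := P.m28
  have h1 : (0 : ℝ) < (m : ℝ) - 1 := by linarith
  refine ⟨by positivity, ?_, ?_, ?_⟩
  · apply one_div_le_one_div_of_le (by norm_num); linarith
  · field_simp; ring
  · rw [div_le_iff₀ h1]
    have : 28 / 27 * (1 / (m : ℝ)) * ((m : ℝ) - 1) = 28 / 27 * (1 - 1 / m) := by field_simp
    rw [this]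
    have : 1 / (m : ℝ) ≤ 1 / 28 := by apply one_div_le_one_div_of_le (by norm_num); linarith
    linarith

lemma kap_nonneg (m c : ℕ) (x : ℝ) : 0 ≤ kap m c x := by unfold kap; positivity

lemma kap_lip (m c : ℕ) (x y : ℝ) : kap m c x ≤ kap m c (x + y) + d y / 2 := by
  have h1 := d_add (x + y) (-y)
  rw [d_neg, show x + y + -y = x by ring] at h1
  have h2 := d_add x y
  unfold kap
  have := d_nonneg y
  have h3 : max 0 ((c : ℝ) / m - d x) ≤ max 0 ((c : ℝ) / m - d (x + y)) + d y := by
    apply max_le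
    · have := le_max_left 0 ((c : ℝ) / m - d (x + y)); linarith
    · have := le_max_right 0 ((c : ℝ) / m - d (x + y)); linarith
  linarith

lemma kap_per (m c : ℕ) (x : ℝ) (n : ℤ) : kap m c (x + n) = kap m c x := by
  unfold kap; rw [d_add_int]

lemma d_mul (m : ℕ) (x : ℝ) : d (m * x) ≤ m * d x := by
  have h := d_le (m * x) (m * round x)
  push_cast at h
  rw [← mul_sub, abs_mul, abs_of_nonneg (Nat.cast_nonneg m)] at h
  exact h

/-- The inequality (R). -/
lemma ineqR {m c : ℕ} (P : Par m c) {x : ℝ} (hx : 1 / 4 ≤ d x) :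
    1 - kap m c x + 1 / ((m : ℝ) - 1) ≤ 4 * d x := by
  have h := P.m28
  obtain ⟨-, -, -, e4⟩ := P.eps
  have h1 : ((c : ℝ) / m - d x) / 2 ≤ kap m c x := by
    unfold kap
    have := le_max_right 0 ((c : ℝ) / m - d x)
    linarith
  have h2 : 1 / 4 + 13 / 4 * (1 / m) ≤ (c : ℝ) / m := by
    rw [le_div_iff₀ (by linarith)]
    have e : (1 / 4 + 13 / 4 * (1 / (m : ℝ))) * m = m / 4 + 13 / 4 := by field_simp
    rw [e]; exact P.c1
  have h3 : 0 < 1 / (m : ℝ) := by positivity
  linarith

/-- The inequality (P). -/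
lemma ineqP {m c : ℕ} (P : Par m c) {g : ℝ → ℝ} (hg : Good m c g) {x : ℝ} (hx : d x < 1 / 4) :
    g (m * x) / m + d x / 2 ≤ G (d x) := by
  have h := P.m28
  have hm0 : (0 : ℝ) < m := by linarith
  obtain ⟨e1, e2, e3, e4⟩ := P.eps
  have hd := d_nonneg x
  have hd2 := d_mul m x
  rcases lt_or_ge ((m : ℝ) * d x) (1 / 4) with h1 | h1
  · have h2 : d (m * x) < 1 / 4 := by linarith
    rw [hg.small _ h2]
    have h3 : G (d (m * x)) ≤ G (m * d x) := G_mono (d_nonneg _) hd2 (by linarith)
    rcases eq_or_lt_of_le hd with h0 | h0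
    · rw [← h0] at h3 ⊢
      rw [mul_zero, G_zero] at h3
      rw [G_zero]
      have : G (d (↑m * x)) / m ≤ 0 := div_nonpos_of_nonpos_of_nonneg h3 hm0.le
      linarith
    · have h4 := G_ent (y := d x) (s := m * d x) hd (by nlinarith) (by positivity) (by linarith)
      have h5 : d x / (m * d x) = 1 / m := by field_simp
      rw [h5] at h4
      have h6 : (m : ℝ) * d x * Real.negMulLog (1 / m) = d x * Real.log m := by
        unfold Real.negMulLog
        rw [one_div, Real.log_inv]
        field_simp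
      rw [h6] at h4
      have h7 : (1 : ℝ) / 2 ≤ Real.log m := by
        have : (1 : ℝ) / 2 ≤ Real.log 2 := by have := Real.log_two_gt_d9; linarith
        exact this.trans (Real.log_le_log (by norm_num) (by linarith))
      have h8 : G (d (↑m * x)) / m ≤ 1 / m * G (m * d x) := by
        rw [one_div, inv_mul_eq_div]
        gcongr
      nlinarith
  · have h2 : g (m * x) / m ≤ 1 / ((m : ℝ) - 1) := by
      rw [← e3]
      gcongr
      exact hg.up _
    have h1' : 1 / 4 * (1 / (m : ℝ)) ≤ d x := by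
      have : 1 / 4 * (1 / (m : ℝ)) = (1 / 4) / m := by ring
      rw [this, div_le_iff₀ hm0]; linarith
    rcases le_total (1 / 3 * (1 / (m : ℝ))) (d x) with h3 | h3
    · have h4 := G_four hd hx.le
      have : 0 < 1 / (m : ℝ) := by positivity
      linarith
    · have hd0 : 0 < d x := lt_of_lt_of_le (by positivity) h1'
      have h4 := G_ent (y := d x) (s := 1 / 4) hd hx.le (by norm_num) (by norm_num)
      rw [G_one_mid (x := 1 / 4) le_rfl (by norm_num)] at h4
      have h6 : (1 : ℝ) / 4 * Real.negMulLog (d x / (1 / 4)) = d x * Real.log (1 / (4 * d x)) := by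
        unfold Real.negMulLog
        rw [one_div (4 * d x), Real.log_inv]
        rw [show d x / (1 / 4) = 4 * d x by ring]
        ring
      rw [h6] at h4
      have h7 : 1 ≤ Real.log (1 / (4 * d x)) := by
        rw [Real.le_log_iff_exp_le (by positivity)]
        have : Real.exp 1 ≤ 3 := by have := Real.exp_one_lt_d9; linarith
        refine this.trans ?_
        rw [le_div_iff₀ (by positivity)]
        have : 1 / (m : ℝ) ≤ 1 / 28 := by
          apply one_div_le_one_div_of_le (by norm_num); linarith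
        linarith
      have : 0 < 1 / (m : ℝ) := by positivity
      nlinarith

section

variable {m c : ℕ} {g : ℝ → ℝ}

lemma T_small {x : ℝ} (hx : d x < 1 / 4) : T m c g x = G (d x) := if_pos hx

lemma T_big {x : ℝ} (hx : 1 / 4 ≤ d x) :
    T m c g x = max 1 (1 - kap m c x + g (m * x) / m) := if_neg (not_lt.2 hx)

lemma T_lo (x : ℝ) : G (d x) ≤ T m c g x := by
  rcases lt_or_ge (d x) (1 / 4) with h | h
  · rw [T_small h]
  · rw [T_big h]
    exact (G_le_one (d_nonneg _) (by linarith [d_le_half x])).trans (le_max_left _ _)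

lemma T_second {x : ℝ} (hx : 1 / 4 ≤ d x) : 1 - kap m c x + g (m * x) / m ≤ T m c g x := by
  rw [T_big hx]; exact le_max_right _ _

lemma T_one {x : ℝ} (hx : 1 / 4 ≤ d x) : 1 ≤ T m c g x := by
  rw [T_big hx]; exact le_max_left _ _

lemma T_per (hg : Good m c g) (x : ℝ) (n : ℤ) : T m c g (x + n) = T m c g x := by
  unfold T
  rw [d_add_int, kap_per]
  have e : (m : ℝ) * (x + n) = m * x + ((m * n : ℤ) : ℝ) := by push_cast; ring
  rw [e, hg.per]

lemma T_even (hg : Good m c g) (x : ℝ) : T m c g (-x) = T m c g x := by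
  have e : kap m c (-x) = kap m c x := by unfold kap; rw [d_neg]
  unfold T
  rw [d_neg, e, mul_neg, hg.even]

lemma second_up (P : Par m c) (hg : Good m c g) (x : ℝ) :
    1 - kap m c x + g (m * x) / m ≤ 1 - kap m c x + 1 / ((m : ℝ) - 1) := by
  have h := P.m28
  obtain ⟨-, -, e3, -⟩ := P.eps
  have : g (m * x) / m ≤ 1 / ((m : ℝ) - 1) := by
    rw [← e3]
    have := hg.up (m * x)
    gcongr
  linarith

lemma T_up (P : Par m c) (hg : Good m c g) (x : ℝ) : T m c g x ≤ 1 + 1 / ((m : ℝ) - 1) := by
  obtain ⟨e1, -, -, -⟩ := P.eps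
  rcases lt_or_ge (d x) (1 / 4) with h | h
  · rw [T_small h]
    have := G_le_one (d_nonneg x) (by linarith [d_le_half x])
    linarith
  · rw [T_big h]
    apply max_le (by linarith)
    have := second_up P hg x
    have := kap_nonneg m c x
    linarith

lemma T_up2 (P : Par m c) (hg : Good m c g) (x : ℝ) (hx : 1 / 4 ≤ d x) :
    T m c g x ≤ 4 * d x := by
  rw [T_big hx]
  apply max_le (by linarith)
  exact (second_up P hg x).trans (ineqR P hx)

lemma T_mono_fun {h : ℝ → ℝ} (hgh : ∀ x, g x ≤ h x) (x : ℝ) : T m c g x ≤ T m c h x := by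
  unfold T
  split_ifs with h1
  · exact le_rfl
  · apply max_le_max le_rfl
    have : g (m * x) / m ≤ h (m * x) / m := by
      have := hgh (m * x)
      gcongr
    linarith

lemma T_sub_aux (P : Par m c) (hg : Good m c g) {a b : ℝ} (ha : 1 / 4 ≤ d a) (hb : d b < 1 / 4) :
    1 - kap m c (a + b) + g (m * (a + b)) / m ≤ T m c g a + T m c g b := by
  have h := P.m28
  have h1 := T_second (m := m) (c := c) (g := g) ha
  have h2 := ineqP P hg hb
  have h3 := kap_lip m c a b
  rw [T_small hb]
  have h4 : g (m * (a + b)) / m ≤ g (m * a) / m + g (m * b) / m := by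
    rw [← add_div, mul_add]
    have := hg.sub (m * a) (m * b)
    gcongr
  linarith

lemma T_sub (P : Par m c) (hg : Good m c g) (a b : ℝ) :
    T m c g (a + b) ≤ T m c g a + T m c g b := by
  have h := P.m28
  obtain ⟨e1, e2, -, -⟩ := P.eps
  have hlo : G (d (a + b)) ≤ T m c g a + T m c g b :=
    (GG_sub a b).trans (add_le_add (T_lo a) (T_lo b))
  rcases lt_or_ge (d (a + b)) (1 / 4) with hs | hs
  · rw [T_small hs]; exact hlo
  · rw [T_big hs]
    rw [G_one_mid hs (by linarith [d_le_half (a + b)])] at hlo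
    apply max_le hlo
    rcases lt_or_ge (d a) (1 / 4) with ha | ha <;> rcases lt_or_ge (d b) (1 / 4) with hb | hb
    · have h1 := (second_up P hg (a + b)).trans (ineqR P hs)
      have h2 := d_add a b
      have h3 := G_four (d_nonneg a) ha.le
      have h4 := G_four (d_nonneg b) hb.le
      rw [T_small ha, T_small hb]
      linarith
    · have := T_sub_aux P hg (a := b) (b := a) hb ha
      rw [add_comm b a, add_comm (T m c g b)] at this
      exact this
    · exact T_sub_aux P hg ha hb
    · have h1 := second_up P hg (a + b)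
      have h2 := kap_nonneg m c (a + b)
      have h3 := T_one (m := m) (c := c) (g := g) ha
      have h4 := T_one (m := m) (c := c) (g := g) hb
      linarith

lemma T_good (P : Par m c) (hg : Good m c g) (hrc : RC m (T m c g)) : Good m c (T m c g) where
  per := T_per hg
  even := T_even hg
  sub := T_sub P hg
  lo := T_lo
  up := T_up P hg
  small := fun _ hx => T_small hx
  up2 := T_up2 P hg
  rc := hrc
  mono := T_mono_fun hg.mono

/-- The first function. -/
noncomputable def g0 (x : ℝ) : ℝ := G (d x)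

lemma g0_good (P : Par m c) : Good m c g0 where
  per := fun x n => by unfold g0; rw [d_add_int]
  even := fun x => by unfold g0; rw [d_neg]
  sub := GG_sub
  lo := fun _ => le_rfl
  up := fun x => by
    obtain ⟨e1, -, -, -⟩ := P.eps
    have := G_le_one (d_nonneg x) (by linarith [d_le_half x])
    unfold g0; linarith
  small := fun _ _ => rfl
  up2 := fun x hx => by
    have := G_le_one (d_nonneg x) (by linarith [d_le_half x])
    unfold g0; linarith
  rc := by
    have h := P.hm
    have hm0 : (0 : ℝ) < m := by have := P.m28; linarith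
    have hr := rc_of_relaxed (by omega) (G_relaxed (m := m) (by omega))
    intro u A B hA hB hu
    have h1 := hr u A B hA hB hu
    have e : ∀ i, g0 (u i) = G (u i) := fun i =>
      G_d (hA.trans (hu i).1) ((hu i).2.trans hB)
    have e2 : g0 ((∑ i, u i) / m) = G ((∑ i, u i) / m) := by
      apply G_d
      · apply div_nonneg _ hm0.le
        exact sum_nonneg fun i _ => hA.trans (hu i).1
      · rw [div_le_one hm0]
        calc ∑ i, u i ≤ ∑ _i : Fin m, (1 : ℝ) := sum_le_sum fun i _ => (hu i).2.trans hB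
          _ = m := by simp
    rw [e2]
    simp only [e]
    exact h1
  mono := T_lo

end

end Pool.Agent.H50.MF
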