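import Pool.Agent.H50.MF.Main

/-!
# The middle region: bounds, the maximum, exact values
-/

set_option autoImplicit false

namespace Pool.Agent.H50.MF

open Finset Pool.Agent.H14RC Pool.Agent.H27.FM

/-- The middle region `[c/m, 1 - c/m]` with `c = ⌊m/4⌋ + 4`. -/
def Mid (m : ℕ) (x : ℝ) : Prop :=
  ((m / 4 + 4 : ℕ) : ℝ) / m ≤ x ∧ x ≤ 1 - ((m / 4 + 4 : ℕ) : ℝ) / m

lemma par {m : ℕ} (hm : 28 ≤ m) : Par m (m / 4 + 4) := by
  refine ⟨hm, ?_, ?_⟩
  · have : m ≤ 4 * (m / 4) + 3 := by omega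
    have : (m : ℝ) ≤ 4 * ((m / 4 : ℕ) : ℝ) + 3 := by exact_mod_cast this
    push_cast
    linarith
  · have : 4 * (m / 4) ≤ m := by omega
    have : 4 * ((m / 4 : ℕ) : ℝ) ≤ m := by exact_mod_cast this
    push_cast
    linarith

lemma mid_bounds {m : ℕ} (hm : 28 ≤ m) {x : ℝ} (hx : Mid m x) :
    1 / 4 ≤ x ∧ x ≤ 3 / 4 ∧ ((m / 4 + 4 : ℕ) : ℝ) / m ≤ d x := by
  have P := par hm
  have h28 := P.m28
  have hm0 : (0 : ℝ) < m := by linarith
  have h1 : 1 / 4 ≤ ((m / 4 + 4 : ℕ) : ℝ) / m := by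
    rw [le_div_iff₀ hm0]; linarith [P.c1]
  obtain ⟨h2, h3⟩ := hx
  refine ⟨by linarith, by linarith, ?_⟩
  rcases le_total x (1 / 2) with h | h
  · rw [d_of_le (by linarith) h]; exact h2
  · rw [d_of_ge h (by linarith)]; linarith

lemma d_fract (x : ℝ) : d (Int.fract x) = d x := by
  have := d_add_int (Int.fract x) ⌊x⌋
  rw [Int.fract_add_floor] at this
  exact this.symm

lemma G_d_fract (x : ℝ) : G (d x) = G (Int.fract x) := by
  rw [← d_fract, G_d (Int.fract_nonneg x) (Int.fract_lt_one x).le]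

/-- Lower bound along an orbit in the middle. -/
lemma low {m : ℕ} (hm : 28 ≤ m) (n : ℕ) {x : ℝ} (h0 : 0 ≤ x) (h1 : x ≤ 1)
    (hx : ∀ i < n, Mid m (Int.fract ((m : ℝ) ^ i * x))) :
    ∑ i ∈ range n, (1 / (m : ℝ)) ^ i + (1 / (m : ℝ)) ^ n * G (Int.fract ((m : ℝ) ^ n * x)) ≤
      F m x := by
  have h := gs_low (par hm) n x fun i hi => by
    have := (mid_bounds hm (hx i hi)).2.2
    rwa [d_fract] at this
  rw [G_d_fract] at h
  exact h.trans (le_F (by omega) (gs_inClass (par hm) n) h0 h1)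

/-- The trivial upper bound. -/
lemma floor_le {m : ℕ} (hm : 2 ≤ m) (x : ℝ) :
    F m (Int.fract x) ≤ 1 + F m (Int.fract (m * x)) / m := by
  have hm0 : (0 : ℝ) < m := by positivity
  set y := Int.fract x with hy
  have hy0 : 0 ≤ y := Int.fract_nonneg x
  have hy1 : y < 1 := Int.fract_lt_one x
  have hfr : Int.fract ((m : ℝ) * x) = Int.fract ((m : ℝ) * y) := by
    have e : (m : ℝ) * x = m * y + ((m * ⌊x⌋ : ℤ) : ℝ) := by
      have := Int.fract_add_floor x
      rw [← hy] at this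
      push_cast
      rw [← mul_add, this]
    rw [e, Int.fract_add_intCast]
  rw [hfr]
  have hq0 : 0 ≤ ⌊(m : ℝ) * y⌋ := Int.floor_nonneg.2 (by positivity)
  obtain ⟨q, hq⟩ := Int.eq_ofNat_of_zero_le hq0
  have hqm : q + 1 ≤ m := by
    have h1 : (q : ℝ) ≤ m * y := by
      have := Int.floor_le ((m : ℝ) * y)
      rw [hq] at this
      exact_mod_cast this
    have h2 : (q : ℝ) < m := by nlinarith
    have : q < m := by exact_mod_cast h2
    omega
  have h := one_remainder (F_inClass hm) (q := q) hqm (z := Int.fract ((m : ℝ) * y))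
    (Int.fract_nonneg _) (Int.fract_lt_one _).le
  have e : (Int.fract ((m : ℝ) * y) + q) / m = y := by
    have := Int.fract_add_floor ((m : ℝ) * y)
    rw [hq] at this
    have h3 : Int.fract ((m : ℝ) * y) + q = m * y := by exact_mod_cast this
    rw [h3]; field_simp
  rw [e] at h
  linarith

lemma up_frac {m : ℕ} (hm : 2 ≤ m) (n : ℕ) : ∀ x : ℝ,
    F m (Int.fract x) ≤
      ∑ i ∈ range n, (1 / (m : ℝ)) ^ i + (1 / (m : ℝ)) ^ n * F m (Int.fract ((m : ℝ) ^ n * x)) := by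
  have hm0 : (0 : ℝ) < m := by positivity
  induction n with
  | zero => intro x; simp
  | succ n ih =>
    intro x
    have h1 := floor_le hm x
    have h2 := ih (m * x)
    rw [sum_range_succ']
    have e1 : ∑ i ∈ range n, (1 / (m : ℝ)) ^ (i + 1) = (∑ i ∈ range n, (1 / (m : ℝ)) ^ i) / m := by
      rw [sum_div]
      apply sum_congr rfl
      intro i _
      rw [pow_succ]; ring
    have e2 : (1 / (m : ℝ)) ^ (n + 1) * F m (Int.fract ((m : ℝ) ^ (n + 1) * x)) =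
        ((1 / (m : ℝ)) ^ n * F m (Int.fract ((m : ℝ) ^ n * (m * x)))) / m := by
      rw [pow_succ (m : ℝ) n, mul_assoc, pow_succ (1 / (m : ℝ)) n]; ring
    rw [e1, e2, pow_zero]
    have h3 : F m (Int.fract ((m : ℝ) * x)) / m ≤
        (∑ i ∈ range n, (1 / (m : ℝ)) ^ i +
          (1 / (m : ℝ)) ^ n * F m (Int.fract ((m : ℝ) ^ n * (m * x)))) / m := by gcongr
    rw [add_div] at h3
    linarith

lemma F0 {m : ℕ} (hm : 2 ≤ m) : F m 0 = 0 := by
  apply le_antisymm (F_inClass hm).1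
  have := le_F hm (G_inClass (by omega)) (x := 0) le_rfl zero_le_one
  rwa [G_zero] at this

lemma F1 {m : ℕ} (hm : 2 ≤ m) : F m 1 = 0 := by
  have := F_symm hm (x := 0) le_rfl zero_le_one
  rw [sub_zero, F0 hm] at this
  exact this

lemma F_fract {m : ℕ} (hm : 2 ≤ m) {x : ℝ} (h0 : 0 ≤ x) (h1 : x ≤ 1) :
    F m (Int.fract x) = F m x := by
  rcases eq_or_lt_of_le h1 with h | h
  · rw [h, Int.fract_one, F0 hm, F1 hm]
  · rw [Int.fract_eq_self.2 ⟨h0, h⟩]

lemma up {m : ℕ} (hm : 2 ≤ m) (n : ℕ) {x : ℝ} (h0 : 0 ≤ x) (h1 : x ≤ 1) :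
    F m x ≤
      ∑ i ∈ range n, (1 / (m : ℝ)) ^ i + (1 / (m : ℝ)) ^ n * F m (Int.fract ((m : ℝ) ^ n * x)) := by
  have := up_frac hm n x
  rwa [F_fract hm h0 h1] at this

lemma geo {m : ℕ} (hm : 2 ≤ m) :
    Filter.Tendsto (fun n : ℕ => ∑ i ∈ range n, (1 / (m : ℝ)) ^ i) Filter.atTop
      (nhds ((m : ℝ) / (m - 1))) := by
  have hm2 : (2 : ℝ) ≤ m := by exact_mod_cast hm
  have h1 : 1 / (m : ℝ) < 1 := by rw [div_lt_one (by linarith)]; linarith
  have h := (hasSum_geometric_of_lt_one (by positivity) h1).tendsto_sum_nat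
  have e : (1 - 1 / (m : ℝ))⁻¹ = (m : ℝ) / (m - 1) := by
    have : (0 : ℝ) < (m : ℝ) - 1 := by linarith
    field_simp
  rwa [e] at h

lemma F_le_max {m : ℕ} (hm : 2 ≤ m) {x : ℝ} (h0 : 0 ≤ x) (h1 : x ≤ 1) :
    F m x ≤ (m : ℝ) / (m - 1) := by
  have hm2 : (2 : ℝ) ≤ m := by exact_mod_cast hm
  have hlt : 1 / (m : ℝ) < 1 := by rw [div_lt_one (by linarith)]; linarith
  have ht : Filter.Tendsto (fun n : ℕ => ∑ i ∈ range n, (1 / (m : ℝ)) ^ i + (1 / (m : ℝ)) ^ n * 2)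
      Filter.atTop (nhds ((m : ℝ) / (m - 1) + 0 * 2)) :=
    (geo hm).add ((tendsto_pow_atTop_nhds_zero_of_lt_one (by positivity) hlt).mul_const 2)
  rw [zero_mul, add_zero] at ht
  apply ge_of_tendsto' ht
  intro n
  refine (up hm n h0 h1).trans ?_
  have h2 := inClass_le hm (F_inClass hm) (Int.fract_nonneg ((m : ℝ) ^ n * x))
    (Int.fract_lt_one _).le
  have h3 : (2 : ℝ) / m ≤ 1 := by rw [div_le_one (by linarith)]; linarith
  have : F m (Int.fract ((m : ℝ) ^ n * x)) ≤ 2 := by linarith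
  gcongr

/-- Orbits which stay in the middle. -/
lemma orbit {m : ℕ} (hm : 28 ≤ m) {x : ℝ} (h0 : 0 ≤ x) (h1 : x ≤ 1)
    (hx : ∀ i : ℕ, Mid m (Int.fract ((m : ℝ) ^ i * x))) : F m x = (m : ℝ) / (m - 1) := by
  apply le_antisymm (F_le_max (by omega) h0 h1)
  apply le_of_tendsto' (geo (by omega))
  intro n
  refine le_trans ?_ (low hm n h0 h1 fun i _ => hx i)
  have h2 := G_nonneg (Int.fract_nonneg ((m : ℝ) ^ n * x)) (Int.fract_lt_one _).le
  have : 0 ≤ (1 / (m : ℝ)) ^ n * G (Int.fract ((m : ℝ) ^ n * x)) := by positivity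
  linarith

lemma fixed_orbit {m j : ℕ} (hm : 2 ≤ m) (hj : j < m - 1) (i : ℕ) :
    Int.fract ((m : ℝ) ^ i * ((j : ℝ) / (m - 1))) = (j : ℝ) / (m - 1) := by
  have hm2 : (2 : ℝ) ≤ m := by exact_mod_cast hm
  have hm1 : (0 : ℝ) < (m : ℝ) - 1 := by linarith
  have key : ∃ N : ℕ, (m : ℝ) ^ i * ((j : ℝ) / (m - 1)) = (j : ℝ) / (m - 1) + N := by
    induction i with
    | zero => exact ⟨0, by simp⟩
    | succ i ih =>
      obtain ⟨N, hN⟩ := ih
      refine ⟨j + m * N, ?_⟩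
      rw [pow_succ', mul_assoc, hN]
      push_cast
      field_simp
      ring
  obtain ⟨N, hN⟩ := key
  rw [hN, Int.fract_add_natCast, Int.fract_eq_self]
  refine ⟨by positivity, ?_⟩
  rw [div_lt_one hm1]
  have : j + 1 < m := by omega
  have : (j : ℝ) + 1 < m := by exact_mod_cast this
  linarith

lemma half_mid {m : ℕ} (hm : 28 ≤ m) : Mid m (((m / 2 : ℕ) : ℝ) / (m - 1)) := by
  have P := par hm
  have h28 := P.m28
  have hm0 : (0 : ℝ) < m := by linarith
  have hm1 : (0 : ℝ) < (m : ℝ) - 1 := by linarith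
  have h1 : ((m / 4 + 4 : ℕ) : ℝ) / m ≤ 43 / 100 := by
    rw [div_le_iff₀ hm0]; linarith [P.c2]
  have h2 : (m : ℝ) ≤ 2 * ((m / 2 : ℕ) : ℝ) + 1 := by
    have : m ≤ 2 * (m / 2) + 1 := by omega
    exact_mod_cast this
  have h3 : 2 * ((m / 2 : ℕ) : ℝ) ≤ m := by
    have : 2 * (m / 2) ≤ m := by omega
    exact_mod_cast this
  constructor
  · refine h1.trans ?_
    rw [le_div_iff₀ hm1]; linarith
  · have : ((m / 2 : ℕ) : ℝ) / (m - 1) ≤ 57 / 100 := by
      rw [div_le_iff₀ hm1]; linarith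
    linarith

lemma max_eq {m : ℕ} (hm : 28 ≤ m) :
    IsGreatest (F m '' Set.Icc 0 1) ((m : ℝ) / (m - 1)) := by
  constructor
  · have hmid := half_mid hm
    obtain ⟨h1, h2, -⟩ := mid_bounds hm hmid
    refine ⟨((m / 2 : ℕ) : ℝ) / (m - 1), ⟨by linarith, by linarith⟩, ?_⟩
    apply orbit hm (by linarith) (by linarith)
    intro i
    rw [fixed_orbit (by omega) (by omega) i]
    exact hmid
  · rintro _ ⟨x, hx, rfl⟩
    exact F_le_max (by omega) hx.1 hx.2

lemma second_order {m : ℕ} (hm : 28 ≤ m) {x : ℝ} (hx : Mid m x) :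
    1 + G (Int.fract ((m : ℝ) * x)) / m ≤ F m x ∧
      F m x ≤ 1 + G (Int.fract ((m : ℝ) * x)) / m + 6 / (m : ℝ) ^ 2 := by
  obtain ⟨h1, h2, -⟩ := mid_bounds hm hx
  have P := par hm
  have h28 := P.m28
  have hm0 : (0 : ℝ) < m := by linarith
  have hfx : Int.fract x = x := Int.fract_eq_self.2 ⟨by linarith, by linarith⟩
  constructor
  · have h := low hm 1 (x := x) (by linarith) (by linarith) (by
      intro i hi
      have : i = 0 := by omega
      subst this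
      rw [pow_zero, one_mul, hfx]
      exact hx)
    simp only [range_one, sum_singleton, pow_zero, pow_one] at h
    calc 1 + G (Int.fract ((m : ℝ) * x)) / m = 1 + 1 / m * G (Int.fract ((m : ℝ) * x)) := by ring
      _ ≤ F m x := h
  · have h := floor_le (by omega : 2 ≤ m) x
    rw [hfx] at h
    have h3 := upper (by omega : 2 ≤ m) (F_inClass (by omega)) (Int.fract_nonneg ((m : ℝ) * x))
      (Int.fract_lt_one _).le
    have h4 : F m (Int.fract ((m : ℝ) * x)) / m ≤ (G (Int.fract ((m : ℝ) * x)) + 6 / m) / m := by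
      gcongr
    have e : (G (Int.fract ((m : ℝ) * x)) + 6 / m) / m =
        G (Int.fract ((m : ℝ) * x)) / m + 6 / (m : ℝ) ^ 2 := by
      field_simp
    linarith

/-- Outside the middle. -/
lemma lt_one {m : ℕ} (hm : 28 ≤ m) {x : ℝ} (h0 : 0 ≤ x) (h1 : x ≤ 1 / 4 - 3 / m) :
    F m x < 1 := by
  have P := par hm
  have h28 := P.m28
  have hm0 : (0 : ℝ) < m := by linarith
  have hp : 0 < 3 / (m : ℝ) := by positivity
  have hp2 : 6 / (m : ℝ) = 2 * (3 / m) := by ring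
  have hp3 : 3 / (m : ℝ) ≤ 1 / 9 := by rw [div_le_iff₀ hm0]; linarith
  have h2 := upper_a (by omega : 3 ≤ m) (F_inClass (by omega)) 1 h0 (by linarith : x ≤ 1)
  obtain ⟨r, hr0, hr⟩ := exists_root 1 h0
  rw [← hr, a_pow 1 hr0] at h2
  rw [hr] at h2
  push_cast at h2
  rw [pow_one] at h2
  have hr' : r ^ 2 = x := hr
  have : r < 1 / 2 - 3 / m := by
    by_contra hcon
    push Not at hcon
    have : (1 / 2 - 3 / (m : ℝ)) ^ 2 ≤ r ^ 2 := by
      apply pow_le_pow_left₀ _ hcon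
      linarith
    nlinarith
  linarith

end Pool.Agent.H50.MF
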